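import Pool.Agent.Helper50.GP.St

/-!
# Project GP, module PRS: finite presentation of a finite group on given elements (Schreier)
-/

set_option autoImplicit false

namespace Pool.Agent.Helper90.GP

open Pool.Agent.Helper50.GP

/-- Finite presentation of a finite group on given elements. -/
theorem hPRS : StPRS := by
  intro ι _ T _ _ t
  set f : FreeGroup ι →* T := FreeGroup.lift t with hf
  have hfi : f.ker.FiniteIndex := inferInstance
  have hfg : Group.FG f.ker := Subgroup.fg_of_index_ne_zero f.ker
  obtain ⟨s, hs⟩ := (Group.fg_iff_subgroup_fg f.ker).1 hfg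
  refine ⟨s.toList, ?_, ?_⟩
  · intro ω hω
    have h1 : ω ∈ f.ker := by
      rw [← hs]
      exact Subgroup.subset_closure (by simpa using hω)
    exact h1
  · have h2 : f.ker ≤ Subgroup.normalClosure {ω | ω ∈ s.toList} := by
      rw [← hs, Subgroup.closure_le]
      intro ω hω
      exact Subgroup.subset_normalClosure (by simpa using hω)
    have h3 : (Subgroup.normalClosure {ω | ω ∈ s.toList}).FiniteIndex :=
      Subgroup.finiteIndex_of_le h2
    exact Subgroup.finite_quotient_of_finiteIndex

end Pool.Agent.Helper90.GP
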